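import Pool.Graph.R_seed8.Results.MP_23c7c4_al.UnmixedNotCM

/-!
# A tree on six vertices: `I`, `I²`, `I³` Cohen-Macaulay, `I⁴` unmixed and not Cohen-Macaulay

The counterexample of the starting file is identified here: the graph is the path `0 - 1 - 2` with a
whisker at every vertex, hence a tree, the path edges have weight one and the whiskers weight two.
New here: also `I` and `I³` are Cohen-Macaulay.
-/

namespace Pool.Agent.Results.MP_23c7c4_al.WhiskeredPath

open Pool.Agent.Results.MP_23c7c4_al.UnmixedNotCM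

theorem G_connected : G.Connected := by
  have : Nonempty (Fin 6) := ⟨0⟩
  have h01 : G.Adj 0 1 := by decide
  have h12 : G.Adj 2 1 := by decide
  have h03 : G.Adj 3 0 := by decide
  have h14 : G.Adj 4 1 := by decide
  have h25 : G.Adj 5 2 := by decide
  have key : ∀ u : Fin 6, G.Reachable u 1 := by
    intro u
    fin_cases u
    · exact h01.reachable
    · exact SimpleGraph.Reachable.refl _
    · exact h12.reachable
    · exact h03.reachable.trans h01.reachable
    · exact h14.reachable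
    · exact h25.reachable.trans h12.reachable
  exact ⟨fun u v => (key u).trans (key v).symm⟩

theorem G_card : Nat.card G.edgeSet + 1 = Nat.card (Fin 6) := by
  rw [Nat.card_eq_fintype_card, Nat.card_eq_fintype_card]
  decide

theorem G_tree : G.IsTree :=
  SimpleGraph.isTree_iff_connected_and_card.2 ⟨G_connected, G_card⟩

theorem G_adj : ∀ u v : Fin 6, G.Adj u v ↔
    (s(u, v) = s(0, 1) ∨ s(u, v) = s(1, 2) ∨ s(u, v) = s(0, 3) ∨ s(u, v) = s(1, 4) ∨
      s(u, v) = s(2, 5)) := by decide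

/-- The weighted graph: the path `0 - 1 - 2` with whiskers `0 - 3`, `1 - 4`, `2 - 5`.  The two path
edges have weight one, the whiskers weight two. -/
def IsWhiskeredPath (G : SimpleGraph (Fin 6)) (ω : Sym2 (Fin 6) → ℕ) : Prop :=
  (∀ u v : Fin 6, G.Adj u v ↔
    (s(u, v) = s(0, 1) ∨ s(u, v) = s(1, 2) ∨ s(u, v) = s(0, 3) ∨ s(u, v) = s(1, 4) ∨
      s(u, v) = s(2, 5))) ∧
  ω s(0, 1) = 1 ∧ ω s(1, 2) = 1 ∧ ω s(0, 3) = 2 ∧ ω s(1, 4) = 2 ∧ ω s(2, 5) = 2

/-- Two edge weights which agree on the edges have the same ideal. -/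
theorem wideal_congr (K : Type*) [Field K] {G : SimpleGraph (Fin 6)} {ω ω' : Sym2 (Fin 6) → ℕ}
    (h : ∀ u v, G.Adj u v → ω s(u, v) = ω' s(u, v)) : wideal K G ω = wideal K G ω' := by
  unfold wideal
  congr 1
  ext f
  constructor
  · rintro ⟨u, v, huv, rfl⟩
    exact ⟨u, v, huv, by rw [h u v huv]⟩
  · rintro ⟨u, v, huv, rfl⟩
    exact ⟨u, v, huv, by rw [h u v huv]⟩

open MvPolynomial R831.MonId

section ideal

variable {K : Type*} [Field K]

/-- check that the sums of the elements of `L` and `L'` and the elements of `M` generate the same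
ideal -/
def chkMul2 (L L' M : List T6) : Bool :=
  (L.all fun g => L'.all fun h => M.any fun k => le6 k (add6 g h)) &&
    (M.all fun k => L.any fun g => L'.any fun h => le6 (add6 g h) k)

theorem mI_mul2 {L L' M : List T6} (hc : chkMul2 L L' M = true) :
    mI K (SL L) * mI K (SL L') = mI K (SL M) := by
  rw [chkMul2, Bool.and_eq_true] at hc
  obtain ⟨h1, h2⟩ := hc
  apply le_antisymm
  · rw [mI, mI, Ideal.span_mul_span', Ideal.span_le]
    rintro _ ⟨_, ⟨_, ⟨g, hg, rfl⟩, rfl⟩, _, ⟨_, ⟨h, hh, rfl⟩, rfl⟩, rfl⟩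
    simp only [monomial_mul, mul_one]
    apply mono_mem_mI
    rw [List.all_eq_true] at h1
    have h3 := h1 g hg
    rw [List.all_eq_true] at h3
    have h4 := h3 h hh
    rw [List.any_eq_true] at h4
    obtain ⟨k, hk, hle⟩ := h4
    rw [le6_iff, toF_add] at hle
    exact ⟨_, ⟨k, hk, rfl⟩, hle⟩
  · rw [mI, mI, mI, Ideal.span_le]
    rintro _ ⟨_, ⟨k, hk, rfl⟩, rfl⟩
    rw [List.all_eq_true] at h2
    have h3 := h2 k hk
    rw [List.any_eq_true] at h3
    obtain ⟨g, hg, h4⟩ := h3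
    rw [List.any_eq_true] at h4
    obtain ⟨h, hh, hle⟩ := h4
    rw [le6_iff, toF_add] at hle
    have h5 : monomial (toF k) (1 : K) =
        monomial (toF k - (toF g + toF h)) 1 * (monomial (toF g) 1 * monomial (toF h) 1) := by
      rw [monomial_mul, monomial_mul, one_mul, one_mul, tsub_add_cancel_of_le hle]
    simp only [SetLike.mem_coe]
    rw [h5]
    exact Ideal.mul_mem_left _ _ (Ideal.mul_mem_mul (Ideal.subset_span ⟨_, ⟨g, hg, rfl⟩, rfl⟩)
      (Ideal.subset_span ⟨_, ⟨h, hh, rfl⟩, rfl⟩))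

/-- exponents of the generators of `I³` -/
def M3 : List T6 := [(2, 0, 4, 2, 0, 4), (2, 1, 3, 2, 0, 2), (2, 2, 2, 2, 0, 0), (3, 1, 2, 2, 0, 2),
  (3, 2, 1, 2, 0, 0), (4, 0, 2, 4, 0, 2), (4, 1, 1, 4, 0, 0), (4, 2, 0, 2, 0, 0),
  (5, 1, 0, 4, 0, 0), (6, 0, 0, 6, 0, 0), (0, 4, 2, 0, 2, 0), (0, 5, 1, 0, 4, 0),
  (0, 6, 0, 0, 6, 0), (1, 4, 1, 0, 2, 0), (1, 5, 0, 0, 4, 0), (2, 4, 0, 0, 2, 0),
  (0, 0, 6, 0, 0, 6), (0, 1, 5, 0, 0, 4), (0, 2, 4, 0, 0, 2), (1, 1, 4, 0, 0, 4),
  (1, 2, 3, 0, 0, 2), (2, 2, 2, 0, 0, 2), (1, 3, 2, 0, 0, 0), (2, 3, 1, 0, 0, 0),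
  (3, 3, 0, 0, 0, 0), (0, 3, 3, 0, 0, 0)]

theorem c13 : chkMul2 L1 M2 M3 = true := by decide +kernel
theorem c3_0 : chk M3 0 3 = true := by decide +kernel
theorem c3_s1 : chk (M3.map s1) 1 4 = true := by decide +kernel
theorem c3_s2 : chk (M3.map s2) 2 5 = true := by decide +kernel
theorem c1_0 : chk L1 0 3 = true := by decide +kernel
theorem c1_s1 : chk (L1.map s1) 1 4 = true := by decide +kernel
theorem c1_s2 : chk (L1.map s2) 2 5 = true := by decide +kernel

theorem cube_eq : (wideal K UnmixedNotCM.G UnmixedNotCM.ω) ^ 3 = mI K (SL M3) := by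
  rw [show 3 = 1 + 2 by rfl, pow_add, pow_one, sq_eq, wideal_eq]
  exact mI_mul2 c13

theorem integral_of_pow' {A : Ideal (RR K)} (n : ℕ) (hn : 0 < n) (h : ∀ i, (X i : RR K) ^ n ∈ A) :
    Module.Finite K (RR K ⧸ A) := by
  have h1 : Algebra.IsIntegral K (RR K ⧸ A) := by
    constructor
    intro x
    obtain ⟨f, rfl⟩ := Ideal.Quotient.mk_surjective x
    induction f using MvPolynomial.induction_on with
    | C a => exact isIntegral_algebraMap (R := K) (A := RR K ⧸ A) (x := a)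
    | add p q hp hq =>
      rw [map_add]
      exact hp.add hq
    | mul_X p i hp =>
      rw [map_mul]
      refine hp.mul ?_
      apply IsIntegral.of_pow (n := n) hn
      rw [← map_pow, Ideal.Quotient.eq_zero_iff_mem.2 (h i)]
      exact isIntegral_zero
  exact Algebra.IsIntegral.finite

theorem finite_list (M : List T6) (n : ℕ) (hn : 0 < n) (e0 : (n, 0, 0, n, 0, 0) ∈ M)
    (e1 : (0, n, 0, 0, n, 0) ∈ M) (e2 : (0, 0, n, 0, 0, n) ∈ M) :
    Module.Finite K (RR K ⧸ (mI K (SL M) ⊔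
      Ideal.ofList [(X 3 - X 0 : RR K), X 4 - X 1, X 5 - X 2])) := by
  apply integral_of_pow' (n + n) (by omega)
  set A := mI K (SL M) ⊔ Ideal.ofList [(X 3 - X 0 : RR K), X 4 - X 1, X 5 - X 2] with hA
  have hT : ∀ t ∈ [(X 3 - X 0 : RR K), X 4 - X 1, X 5 - X 2], t ∈ A := fun t ht =>
    (le_sup_right : _ ≤ A) (Ideal.subset_span ht)
  have t0 : (X 3 - X 0 : RR K) ∈ A := hT _ (by simp)
  have t1 : (X 4 - X 1 : RR K) ∈ A := hT _ (by simp)
  have t2 : (X 5 - X 2 : RR K) ∈ A := hT _ (by simp)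
  have hM : ∀ g ∈ M, (monomial (toF g) (1 : K)) ∈ A := fun g hg =>
    (le_sup_left : _ ≤ A) (Ideal.subset_span ⟨_, ⟨g, hg, rfl⟩, rfl⟩)
  have m0 := hM _ e0
  have m1 := hM _ e1
  have m2 := hM _ e2
  rw [mono_toF] at m0 m1 m2
  have key : ∀ a b : RR K, b - a ∈ A → a ^ n * b ^ n ∈ A → a ^ (n + n) ∈ A ∧ b ^ (n + n) ∈ A := by
    intro a b hba hab
    have hd : b - a ∣ b ^ n - a ^ n := sub_dvd_pow_sub_pow b a n
    have h4 : b ^ n - a ^ n ∈ A := A.mem_of_dvd hd hba
    constructor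
    · have : a ^ (n + n) = a ^ n * b ^ n - a ^ n * (b ^ n - a ^ n) := by ring
      rw [this]
      exact A.sub_mem hab (A.mul_mem_left _ h4)
    · have : b ^ (n + n) = a ^ n * b ^ n + b ^ n * (b ^ n - a ^ n) := by ring
      rw [this]
      exact A.add_mem hab (A.mul_mem_left _ h4)
  have k0 := key (X 0) (X 3) t0 (by simpa using m0)
  have k1 := key (X 1) (X 4) t1 (by simpa using m1)
  have k2 := key (X 2) (X 5) t2 (by simpa using m2)
  intro i
  fin_cases i
  · exact k0.1
  · exact k1.1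
  · exact k2.1
  · exact k0.2
  · exact k1.2
  · exact k2.2

theorem cm_list (M : List T6) (n : ℕ) (hn : 0 < n) (e0 : (n, 0, 0, n, 0, 0) ∈ M)
    (e1 : (0, n, 0, 0, n, 0) ∈ M) (e2 : (0, 0, n, 0, 0, n) ∈ M)
    (hz : M.all (fun g => g ≠ (0, 0, 0, 0, 0, 0)) = true)
    (d0 : chk M 0 3 = true) (d1 : chk (M.map s1) 1 4 = true) (d2 : chk (M.map s2) 2 5 = true) :
    IsCM (mI K (SL M)) := by
  refine ⟨[X 3 - X 0, X 4 - X 1, X 5 - X 2], ?_, ?_, finite_list M n hn e0 e1 e2⟩
  · intro r hr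
    refine ⟨1, one_pos, ?_⟩
    simp only [List.mem_cons, List.not_mem_nil, or_false] at hr
    rcases hr with rfl | rfl | rfl
    · exact (isHomogeneous_X K 3).sub (isHomogeneous_X K 0)
    · exact (isHomogeneous_X K 4).sub (isHomogeneous_X K 1)
    · exact (isHomogeneous_X K 5).sub (isHomogeneous_X K 2)
  · refine ⟨?_, ?_⟩
    · rw [wr_iff]
      intro i hi
      simp only [List.length_cons, List.length_nil] at hi
      interval_cases i
      · simp only [List.take_zero, Ideal.ofList_nil, sup_bot_eq]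
        exact nz_var (by decide) d0
      · have h1 : NZ (mI K (SL M) ⊔ Ideal.span {(X 3 - X 0 : RR K)}) (X 4 - X 1) :=
          step1 M (by simp [ph1]) (nz_var (by decide) d1)
        simpa using h1
      · have h2 : NZ (mI K (SL M) ⊔ Ideal.span {(X 3 - X 0 : RR K)} ⊔
            Ideal.span {(X 4 - X 1 : RR K)}) (X 5 - X 2) :=
          step2 M (by simp [ph2]) (nz_var (by decide) d2)
        rw [sup_assoc, ← ofList_pair] at h2
        exact h2
    · intro h
      have h1 : (Ideal.Quotient.mk (mI K (SL M)) 1) ∈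
          (Ideal.ofList [(X 3 - X 0 : RR K), X 4 - X 1, X 5 - X 2] •
            (⊤ : Submodule (RR K) (RR K ⧸ mI K (SL M)))) := by
        rw [← h]
        trivial
      rw [mk_mem_smul_top] at h1
      have h2 : mI K (SL M) ⊔ Ideal.ofList [(X 3 - X 0 : RR K), X 4 - X 1, X 5 - X 2] ≤
          mm K := by
        refine sup_le (mI_le_mm hz) ?_
        rw [Ideal.ofList, Ideal.span_le]
        intro r hr
        simp only [List.mem_cons, List.not_mem_nil, or_false, Set.mem_ofPred_eq] at hr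
        rcases hr with rfl | rfl | rfl
        · exact Ideal.sub_mem _ (X_mem_mm 3) (X_mem_mm 0)
        · exact Ideal.sub_mem _ (X_mem_mm 4) (X_mem_mm 1)
        · exact Ideal.sub_mem _ (X_mem_mm 5) (X_mem_mm 2)
      exact (span_prime (K := K) _).ne_top ((Ideal.eq_top_iff_one _).2 (h2 h1))

variable (K) in
theorem cm1 : IsCM (wideal K UnmixedNotCM.G UnmixedNotCM.ω) := by
  rw [wideal_eq]
  exact cm_list L1 2 (by norm_num) (by decide) (by decide) (by decide) (by decide) c1_0 c1_s1 c1_s2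

variable (K) in
theorem cm3 : IsCM ((wideal K UnmixedNotCM.G UnmixedNotCM.ω) ^ 3) := by
  rw [cube_eq]
  exact cm_list M3 6 (by norm_num) (by decide) (by decide) (by decide) (by decide) c3_0 c3_s1 c3_s2

end ideal

/-- **Disproof of Q1 by an explicit tree.**  The path on three vertices with a whisker at every
vertex, with weight one on the path edges and weight two on the whiskers, is a very well-covered
tree on six vertices with positive weights; and over every field `I(G_ω)`, `I(G_ω)²` and `I(G_ω)³`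
are Cohen-Macaulay, `I(G_ω)⁴` is unmixed, and `I(G_ω)⁴` is not Cohen-Macaulay. -/
theorem result.{u} : (∃ (G : SimpleGraph (Fin 6)) (ω : Sym2 (Fin 6) → ℕ), IsWhiskeredPath G ω) ∧
    ∀ (G : SimpleGraph (Fin 6)) (ω : Sym2 (Fin 6) → ℕ), IsWhiskeredPath G ω →
      G.IsTree ∧ VeryWellCovered G ∧ (∀ u v, G.Adj u v → 0 < ω s(u, v)) ∧
      ∀ (K : Type u) [Field K], IsCM (wideal K G ω) ∧ IsCM ((wideal K G ω) ^ 2) ∧
        IsCM ((wideal K G ω) ^ 3) ∧ Unmixed ((wideal K G ω) ^ 4) ∧
        ¬ IsCM ((wideal K G ω) ^ 4) := by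
  constructor
  · exact ⟨UnmixedNotCM.G, UnmixedNotCM.ω, G_adj, by decide, by decide, by decide, by decide,
      by decide⟩
  · rintro G' ω' ⟨hadj, h1, h2, h3, h4, h5⟩
    have hG : G' = UnmixedNotCM.G := by
      ext u v
      rw [hadj, G_adj]
    subst hG
    have hω : ∀ u v, UnmixedNotCM.G.Adj u v → ω' s(u, v) = UnmixedNotCM.ω s(u, v) := by
      intro u v huv
      rcases (G_adj u v).1 huv with h | h | h | h | h <;> rw [h]
      · rw [h1]; decide
      · rw [h2]; decide
      · rw [h3]; decide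
      · rw [h4]; decide
      · rw [h5]; decide
    refine ⟨G_tree, vwc, fun u v huv => ?_, fun K _ => ?_⟩
    · rw [hω u v huv]
      exact Nat.pos_of_ne_zero huv
    · rw [wideal_congr K hω]
      exact ⟨cm1 K, cm2 K, cm3 K, unmixed4 K, not_cm4 K⟩

end Pool.Agent.Results.MP_23c7c4_al.WhiskeredPath
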